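import Pool.Agent.H95.GJ.Tow

/-!
# GJ, Fin: the final theorem from the claim

Project GJ, helper95.
-/

set_option autoImplicit false

namespace GJ

open Polynomial HK ZC HJ

section ring

variable (a : Fin 5 → AK) [ha : Fact (Function.Injective a)]

/-- The sum of the `e_P` of a cycle is the sum for a multiset of affine points. -/
theorem exists_Z (z : Cyc (fun _ : Unit => quint a ha.out)) :
    ∃ Z : Multiset (AK × AK), OnC (g := 2) a Z ∧
      (z.sum fun s b => b • (s.map ee).sum) = eS a Z := by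
  let A : AddSubgroup (Cyc (fun _ : Unit => quint a ha.out)) :=
    { carrier := {c | ∃ Z : Multiset (AK × AK), OnC (g := 2) a Z ∧ c = eS a Z}
      add_mem' := by
        rintro c d ⟨Z, hZ, rfl⟩ ⟨Z', hZ', rfl⟩
        exact ⟨Z + Z', (onC_add (g := 2) a).2 ⟨hZ, hZ'⟩, (eS_add a Z Z').symm⟩
      zero_mem' := ⟨0, onC_zero (g := 2) a, (eS_zero a).symm⟩
      neg_mem' := by
        rintro c ⟨Z, hZ, rfl⟩
        exact ⟨wS Z, onC_wS (g := 2) a hZ, (eS_wS a hZ).symm⟩ }
  have hee : ∀ P : Pts (fun _ : Unit => quint a ha.out), ee P ∈ A := by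
    intro P
    rcases exists_aff a P with rfl | ⟨Q, hQ, rfl⟩
    · rw [ee_oo]
      exact A.zero_mem
    · refine ⟨{Q}, ?_, (eS_single a Q).symm⟩
      intro R hR
      rw [Multiset.mem_singleton] at hR
      rw [hR]
      exact hQ
  have h : (z.sum fun s b => b • (s.map ee).sum) ∈ A := by
    refine sum_mem fun s _ => A.zsmul_mem (AddSubgroup.multiset_sum_mem _ _ ?_) _
    intro c hc
    obtain ⟨P, _, rfl⟩ := Multiset.mem_map.1 hc
    exact hee P
  exact h

variable {S : Type} [CommRing S] (ψ : Cyc (fun _ : Unit => quint a ha.out) →+ S)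
  (hS : ∀ (m : ℕ) (x : S), m ≠ 0 → (m : S) * x = 0 → x = 0)
  (hψ : ∀ c, Tors (fun _ : Unit => quint a ha.out) c ↔ ψ c = 0)
  (hmul : ∀ c d, ψ (mul c d) = ψ c * ψ d)

include hψ in
theorem two_z (z : Cyc (fun _ : Unit => quint a ha.out))
    (hz : ∀ s ∈ z.support, Multiset.card s = 1) (hz0 : (z.sum fun _ m => m) = 0) :
    2 * ψ z = ψ (z.sum fun s b => b • (s.map ee).sum) := by
  have h1 : ∀ P : Pts (fun _ : Unit => quint a ha.out),
      2 * ψ (pt P) = ψ (pt (oo a) + pt (inv (oo a))) + ψ (ee P) := by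
    rintro ⟨u, P⟩
    have h2 := (hψ _).1 (ksum (H := fun _ : Unit => quint a ha.out) () P (toi a).mk')
    rw [map_sub, sub_eq_zero] at h2
    change 2 * ψ (pt (⟨(), P⟩ : Pts (fun _ : Unit => quint a ha.out))) =
      ψ (pt (⟨(), (toi a).mk'⟩ : Pts (fun _ : Unit => quint a ha.out)) +
        pt (inv ⟨(), (toi a).mk'⟩)) + ψ (pt ⟨(), P⟩ - pt (inv ⟨(), P⟩))
    rw [← h2, ← map_add]
    have e : pt (⟨(), P⟩ : Pts (fun _ : Unit => quint a ha.out)) + pt (inv ⟨(), P⟩) +
        (pt ⟨(), P⟩ - pt (inv ⟨(), P⟩)) = pt ⟨(), P⟩ + pt ⟨(), P⟩ := by abel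
    rw [e, map_add, two_mul]
  have h3 : ∀ s ∈ z.support, 2 * ψ (Finsupp.single s (z s)) =
      z s • ψ (pt (oo a) + pt (inv (oo a))) + ψ (z s • (s.map ee).sum) := by
    intro s hs
    obtain ⟨P, rfl⟩ := Multiset.card_eq_one.1 (hz s hs)
    have h4 : Finsupp.single ({P} : Multiset (Pts (fun _ : Unit => quint a ha.out)))
        (z ({P} : Multiset (Pts (fun _ : Unit => quint a ha.out)))) =
        z ({P} : Multiset (Pts (fun _ : Unit => quint a ha.out))) • pt P := by
      unfold pt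
      rw [Finsupp.smul_single, smul_eq_mul, mul_one]
    rw [h4, Multiset.map_singleton, Multiset.sum_singleton, map_zsmul, map_zsmul, ← smul_add,
      ← h1 P, mul_smul_comm]
  have h5 : ψ z = ∑ s ∈ z.support, ψ (Finsupp.single s (z s)) := by
    rw [← map_sum]
    congr 1
    exact (Finsupp.sum_single z).symm
  rw [h5, Finset.mul_sum, Finset.sum_congr rfl h3, Finset.sum_add_distrib, ← Finset.sum_smul]
  have h6 : ∑ s ∈ z.support, z s = 0 := hz0
  rw [h6, zero_smul, zero_add, Finsupp.sum, map_sum]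

include hψ hmul in
theorem sq_zero (P : Pts (fun _ : Unit => quint a ha.out)) : ψ (ee P) * ψ (ee P) = 0 := by
  rw [← hmul, mul_ep]
  exact (hψ _).1 (sq_tors _ P)

include hψ in
theorem rat_zero (c : Cyc (fun _ : Unit => quint a ha.out))
    (h : c ∈ ratZero (fun _ : Unit => quint a ha.out)) : ψ c = 0 :=
  (hψ c).1 ⟨1, one_pos, by rwa [one_smul]⟩

include hS hψ in
/-- If the class of `Z` is torsion then `Σ e_P` is torsion. -/
theorem tors_Z (Z : Multiset (AK × AK)) (hZ : OnC (g := 2) a Z) (m : ℕ) (hm : 0 < m)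
    (h : clS (g := 2) a Z ^ m = 1) : ψ (eS a Z) = 0 := by
  have h1 := prin_ee a (m • Z) (by
    intro P hP
    rw [Multiset.mem_nsmul] at hP
    exact hZ P hP.2) (by rw [clS_nsmul, h])
  have h2 := rat_zero a ψ hψ _ h1
  rw [eS_nsmul, map_nsmul, nsmul_eq_mul] at h2
  exact hS m _ hm.ne' h2

end ring

private theorem sum_map0 {G : Type*} [AddCommGroup G] (F : ℕ × Fin 4 → G) (n : ℕ →₀ ℤ) :
    ((n.mapDomain fun j => (j, (0 : Fin 4))).sum fun j b => b • F j) =
      n.sum fun j b => b • F (j, 0) :=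
  Finsupp.sum_mapDomain_index (by intro j; rw [zero_smul]) (by intro j b c; rw [add_smul])

/-- The sequence of independent points of the theorem on quadruples. -/
theorem exists_Q (a : Fin 5 → AK) (ha : Function.Injective a) :
    ∃ Q : ℕ → Pts (fun _ : Unit => quint a ha), ∀ n : ℕ →₀ ℤ,
      Tors _ (n.sum fun j b => b • ee (Q j)) → n = 0 := by
  obtain ⟨f, hf, ⟨Q, hQ⟩, -⟩ := HK.final3 a ha
  refine ⟨Q, fun n hn => ?_⟩
  have hinj : Function.Injective (fun j : ℕ => (j, (0 : Fin 4))) := fun i j h => (Prod.mk.inj h).1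
  have h1 := hQ (n.mapDomain fun j => (j, (0 : Fin 4))) (by
    rw [sum_map0 (fun j => ee (f (Q j.1) j.2)) n]
    simp only [hf]
    exact hn)
  exact Finsupp.mapDomain_injective hinj (h1.trans Finsupp.mapDomain_zero.symm)

theorem final (a : Fin 5 → AK) (ha : Function.Injective a)
    (hcl : ∀ [Fact (Function.Injective a)], Claim a) (z : Cyc (fun _ : Unit => quint a ha))
    (hz : ∀ s ∈ z.support, Multiset.card s = 1) (hz0 : (z.sum fun _ m => m) = 0) :
    ∃ T U : ℕ → Pts (fun _ : Unit => quint a ha),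
      (∀ (m : ℤ) (n : ℕ →₀ ℤ),
        Tors _ (m • z + n.sum fun j b => b • (ee (T j) - ee (U j))) → n = 0) ∧
      (∀ (m : ℤ) (n : ℕ →₀ ℤ), Tors _ (m • z + n.sum fun j b => b • ee (T j)) → n = 0) ∧
      ∀ j, (∃ (N : ℕ) (M : ℤ), 0 < N ∧ N • (ee (T j) + ee (U j)) - M • z ∈ HJ.ratZero _) ∧
        Tors _ (mul z (ee (T j) - ee (U j))) ∧ (Tors _ (mul z z) → Tors _ (mul z (ee (T j)))) := by
  have hfa : Fact (Function.Injective a) := ⟨ha⟩
  obtain ⟨S, iS, ψ, hS, hψ, hmul⟩ := exists_hom (fun _ : Unit => quint a ha)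
  have htwo : ∀ x : S, 2 * x = 0 → x = 0 := by
    intro x hx
    apply hS 2 x two_ne_zero
    rw [Nat.cast_ofNat]
    exact hx
  have hdouble : ∀ (b : ℕ → Cyc (fun _ : Unit => quint a ha)) (n : ℕ →₀ ℤ),
      ((2 : ℤ) • n).sum (fun j c => c • b j) = (2 : ℤ) • n.sum fun j c => c • b j := by
    intro b n
    rw [Finsupp.sum_smul_index' (by intro j; rw [zero_smul]), Finsupp.sum, Finsupp.sum,
      Finset.smul_sum]
    refine Finset.sum_congr rfl fun j _ => ?_
    rw [smul_assoc]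
  have htwon : ∀ n : ℕ →₀ ℤ, (2 : ℤ) • n = 0 → n = 0 := by
    intro n hn
    exact (smul_eq_zero.1 hn).resolve_left two_ne_zero
  obtain ⟨Z, hZ, hEZ⟩ := exists_Z a z
  have h2z := two_z a ψ hψ z hz hz0
  rw [hEZ] at h2z
  by_cases hc : ∀ m : ℕ, 0 < m → clS (g := 2) a Z ^ m ≠ 1
  · obtain ⟨T, U, M, N, h1, h2, h3⟩ := core a hcl Z hZ hc
    have hind : ∀ b : ℕ → Cyc (fun _ : Unit => quint a ha),
        (∀ (m : ℤ) (n : ℕ →₀ ℤ), Tors _ (m • eS a Z + n.sum fun j c => c • b j) → n = 0) →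
        ∀ (m : ℤ) (n : ℕ →₀ ℤ), Tors _ (m • z + n.sum fun j c => c • b j) → n = 0 := by
      intro b hb m n hn
      apply htwon
      apply hb m
      rw [hψ] at hn ⊢
      rw [hdouble, map_add, map_zsmul, ← h2z, map_zsmul, zsmul_eq_mul, zsmul_eq_mul]
      rw [map_add, map_zsmul, zsmul_eq_mul] at hn
      push_cast
      linear_combination 2 * hn
    refine ⟨T, U, hind _ h2, hind _ h3, fun j => ?_⟩
    obtain ⟨hM, hN, hrel⟩ := h1 j
    have h4 := rat_zero a ψ hψ _ hrel
    rw [map_sub, map_nsmul, map_nsmul, map_add, nsmul_eq_mul, nsmul_eq_mul, ← h2z] at h4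
    have hT2 := sq_zero a ψ hψ hmul (T j)
    have hU2 := sq_zero a ψ hψ hmul (U j)
    refine ⟨?_, ?_, ?_⟩
    · have h5 : Tors (fun _ : Unit => quint a ha) ((2 : ℤ) • z - eS a Z) := by
        rw [hψ, map_sub, map_zsmul, zsmul_eq_mul]
        push_cast
        rw [h2z, sub_self]
      obtain ⟨K, hK, h6⟩ := h5
      refine ⟨K * N j, 2 * K * M j, Nat.mul_pos hK hN, ?_⟩
      have h7 := sub_mem (AddSubgroup.nsmul_mem _ hrel K) (AddSubgroup.nsmul_mem _ h6 (M j))
      have h8 : (K * N j) • (ee (T j) + ee (U j)) - (2 * K * M j : ℤ) • z =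
          K • (N j • (ee (T j) + ee (U j)) - M j • eS a Z) -
            M j • K • ((2 : ℤ) • z - eS a Z) := by
        simp only [← natCast_zsmul]
        push_cast
        module
      rw [h8]
      exact h7
    · rw [hψ, hmul, map_sub]
      apply hS (M j) _ hM.ne'
      apply htwo
      linear_combination (-(ψ (ee (T j)) - ψ (ee (U j)))) * h4 + (N j : S) * hT2 - (N j : S) * hU2
    · intro hzz
      rw [hψ, hmul] at hzz ⊢
      set t := ψ (ee (T j)) with ht
      set u := ψ (ee (U j)) with hu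
      have h5 : t * u = 0 := by
        apply hS (N j) _ hN.ne'
        apply hS (N j) _ hN.ne'
        apply htwo
        linear_combination ((N j : S) * (t + u) + (M j : S) * (2 * ψ z)) * h4 -
          (N j : S) ^ 2 * hT2 - (N j : S) ^ 2 * hU2 + 4 * (M j : S) ^ 2 * hzz
      apply hS (M j) _ hM.ne'
      apply htwo
      linear_combination (-t) * h4 + (N j : S) * hT2 + (N j : S) * h5
  · push Not at hc
    obtain ⟨m, hm, h⟩ := hc
    have h1 := tors_Z a ψ hS hψ Z hZ m hm h
    rw [h1] at h2z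
    have h2 := htwo _ h2z
    obtain ⟨Q, hQ⟩ := exists_Q a ha
    have hQ' : ∀ (m : ℤ) (n : ℕ →₀ ℤ), Tors _ (m • z + n.sum fun j b => b • ee (Q j)) → n = 0 := by
      intro m n hn
      apply hQ
      rw [hψ, map_add, map_zsmul, h2, smul_zero, zero_add] at hn
      exact (hψ _).2 hn
    have hinv : ∀ P : Pts (fun _ : Unit => quint a ha), ee (inv P) = - ee P := by
      intro P
      unfold ee
      rw [inv_inv'' a P, neg_sub]
    refine ⟨Q, fun j => inv (Q j), ?_, hQ', fun j => ⟨⟨1, 0, one_pos, ?_⟩, ?_, fun _ => ?_⟩⟩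
    · intro m n hn
      apply htwon
      apply hQ' m
      rw [hdouble]
      have h3 : (n.sum fun j b => b • (ee (Q j) - ee (inv (Q j)))) =
          (2 : ℤ) • n.sum fun j b => b • ee (Q j) := by
        rw [Finsupp.sum, Finsupp.sum, Finset.smul_sum]
        refine Finset.sum_congr rfl fun j _ => ?_
        rw [hinv]
        module
      rw [← h3]
      exact hn
    · rw [hinv, add_neg_cancel, smul_zero, zero_smul, sub_zero]
      exact zero_mem _
    · rw [hψ, hmul, h2, zero_mul]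
    · rw [hψ, hmul, h2, zero_mul]

end GJ
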