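import Pool.Agent.H95.HJ.Final3

/-!
# GJ, Mul: the exterior product of zero-cycles on symmetric powers

Project GJ, helper95.
-/

set_option autoImplicit false

namespace HJ

open ZC
open scoped Classical

variable {k : Type} [Field k] {ι : Type} {n : ι → ℕ} {H : ∀ i, Hyp k (n i)}

/-- The exterior product `c * d` of zero-cycles `c`, `d`: bilinear, with `[s] * [t] = [s + t]` for points
`s`, `t` of symmetric powers (the points of symmetric powers are multisets of points). -/
noncomputable def mul (c d : Cyc H) : Cyc H :=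
  c.sum fun s m => d.sum fun t n => Finsupp.single (s + t) (m * n)

theorem mul_ep (P Q : Pts H) : mul (ee P) (ee Q) = ep P Q := by
  have ha : ∀ (s : Multiset (Pts H)) (m m' : ℤ) (d : Cyc H),
      (d.sum fun t n => Finsupp.single (s + t) ((m + m') * n)) =
      ((d.sum fun t n => Finsupp.single (s + t) (m * n)) +
        d.sum fun t n => Finsupp.single (s + t) (m' * n) : Cyc H) := by
    intro s m m' d
    rw [← Finsupp.sum_add]
    refine Finsupp.sum_congr fun t _ => ?_
    rw [add_mul, Finsupp.single_add]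
  have hsub : ∀ (c c' d : Cyc H), mul (c - c') d = mul c d - mul c' d := by
    intro c c' d
    unfold mul
    rw [Finsupp.sum_sub_index]
    intro s m m'
    rw [eq_sub_iff_add_eq, ← ha, sub_add_cancel]
  have hsub' : ∀ (c d d' : Cyc H), mul c (d - d') = mul c d - mul c d' := by
    intro c d d'
    unfold mul
    rw [← Finsupp.sum_sub]
    refine Finsupp.sum_congr fun s _ => ?_
    rw [Finsupp.sum_sub_index]
    intro t m m'
    rw [mul_sub, Finsupp.single_sub]
  have hp : ∀ P Q : Pts H, mul (pt P) (pt Q) = pr P Q := by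
    intro P Q
    unfold mul pt pr
    rw [Finsupp.sum_single_index (by simp), Finsupp.sum_single_index (by simp), mul_one]
    rfl
  unfold ee
  rw [hsub, hsub', hsub', hp, hp, hp, hp]
  unfold ep
  abel

/-- The homomorphism from the zero-cycles to the ring of zero-cycles modulo torsion. -/
theorem exists_hom [IsAlgClosed k] [CharZero k] (H : ∀ i, Hyp k (n i)) :
    ∃ (S : Type) (_ : CommRing S) (ψ : Cyc H →+ S),
      (∀ (m : ℕ) (x : S), m ≠ 0 → (m : S) * x = 0 → x = 0) ∧ (∀ c, Tors H c ↔ ψ c = 0) ∧
      ∀ c d, ψ (mul c d) = ψ c * ψ d := by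
  obtain ⟨S, iS, φ, hφ, hφ0, hS, hT⟩ := exists_ring H
  let ψ : Cyc H →+ S :=
    Finsupp.liftAddHom (fun s => (AddMonoidHom.mulRight (φ s)).comp (Int.castAddHom S))
  have hψ : ∀ c : Cyc H, ψ c = c.sum fun s a => (a : S) * φ s := fun c => by
    simp only [ψ, Finsupp.liftAddHom_apply]
    rfl
  refine ⟨S, iS, ψ, hS, fun c => by rw [hψ]; exact hT c, ?_⟩
  intro c d
  unfold mul
  rw [Finsupp.sum, map_sum, hψ c, Finsupp.sum, Finset.sum_mul]
  refine Finset.sum_congr rfl fun s _ => ?_
  rw [Finsupp.sum, map_sum, hψ d, Finsupp.sum, Finset.mul_sum]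
  refine Finset.sum_congr rfl fun t _ => ?_
  rw [hψ, Finsupp.sum_single_index (by simp), Int.cast_mul, hφ]
  ring

end HJ
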