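import Pool.Agent.H95.HK.PhiC
import Pool.Agent.H88.GJ.Uni

/-!
# GJ, Prin: a relation in the class group of the affine curve gives a rational equivalence

Project GJ, helper95.
PROOF of `prin`.  `R = CR (FF a)`, `K = Frac R`, `∏ pI(P) = (z)`, `T = (X : 1 : Y)` the generic point.  The places `w` with `w(X) ≤ 1` are the valuations of the maximal
ideals `pI(P)`, the value of `T` is `aff P` and `ord z` is the multiplicity of `P` in `S`; at the other places the value of `T` is the point at infinity, and the degree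
of the divisor of `z` is zero.
-/

set_option autoImplicit false

namespace GJ

open Polynomial HK ZC HJ

section ff

variable {k : Type} [Field k] {g : ℕ} (a : Fin (2 * g + 1) → k)
  [ha : Fact (Function.Injective a)]

/-- The function field of the curve. -/
noncomputable abbrev KK : Type := FractionRing (CR (FF a))

/-- The function `x`. -/
noncomputable def XX : KK a := algebraMap (CR (FF a)) (KK a) (el (FF a) X 0)

/-- The function `y`. -/
noncomputable def YY : KK a := algebraMap (CR (FF a)) (KK a) (el (FF a) 0 1)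

omit ha in
theorem el_aeval (u : k[X]) : el (FF a) u 0 = aeval (el (FF a) X 0) u := by
  rw [← HK.algebraMap_eq, ← HK.algebraMap_eq, aeval_algebraMap_apply, aeval_X_left_apply]

omit ha in
theorem pr_map (u w : k[X]) :
    algebraMap (CR (FF a)) (KK a) (el (FF a) u w) = aeval (XX a) u + aeval (XX a) w * YY a := by
  have h1 : el (FF a) u w = el (FF a) u 0 + el (FF a) w 0 * el (FF a) 0 1 := by
    rw [el_mul, el_add]
    congr 1 <;> ring
  rw [h1, map_add, map_mul, el_aeval a u, el_aeval a w, XX, YY, aeval_algebraMap_apply,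
    aeval_algebraMap_apply]

omit ha in
theorem pr_const (c : k) :
    algebraMap (CR (FF a)) (KK a) (el (FF a) (C c) 0) = algebraMap k (KK a) c := by
  rw [pr_map, aeval_C, map_zero, zero_mul, add_zero]

omit ha in
theorem pr_inj : Function.Injective (algebraMap (CR (FF a)) (KK a)) :=
  IsFractionRing.injective _ _

omit ha in
theorem pr_trans : Transcendental k (XX a) := by
  rw [transcendental_iff]
  intro p hp
  have h1 := pr_map a p 0
  rw [hp, map_zero, zero_mul, add_zero] at h1
  have h2 := pr_inj a (h1.trans (map_zero _).symm)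
  rw [← el_zero] at h2
  exact (el_inj _ h2).1

omit ha in
theorem pr_eq : YY a ^ 2 = aeval (XX a) (FF a) := by
  have h1 := pr_map a (FF a) 0
  rw [map_zero, zero_mul, add_zero] at h1
  rw [← h1, YY, ← map_pow]
  congr 1
  rw [pow_two, el_mul]
  congr 1 <;> ring

theorem pr_ff : IsFunctionField k (KK a) := by
  refine ⟨XX a, pr_trans a, ⟨⟨{1, YY a}, ?_⟩⟩⟩
  rw [eq_top_iff]
  rintro f -
  obtain ⟨r, s, hs, rfl⟩ := IsFractionRing.div_surjective (A := CR (FF a)) f
  obtain ⟨u0, w0, rfl⟩ := el_surj (FF a) r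
  obtain ⟨u1, w1, rfl⟩ := el_surj (FF a) s
  have hs0 : el (FF a) u1 w1 ≠ 0 := nonZeroDivisors.ne_zero hs
  have hp0 : u1 ^ 2 - w1 ^ 2 * FF a ≠ 0 := by
    intro h0
    obtain ⟨hu, hw⟩ := par_deg u1 w1 (FF a) (cra_FF_odd a) (sub_eq_zero.1 h0)
    apply hs0
    rw [hu, hw, el_zero]
  set p : k[X] := u1 ^ 2 - w1 ^ 2 * FF a with hp
  have hp1 : aeval (XX a) p ≠ 0 := by
    intro h0
    exact hp0 ((transcendental_iff.1 (pr_trans a)) p h0)
  have hs1 : algebraMap (CR (FF a)) (KK a) (el (FF a) u1 w1) ≠ 0 := by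
    intro h0
    exact hs0 (pr_inj a (h0.trans (map_zero _).symm))
  have e1 : algebraMap (CR (FF a)) (KK a) (el (FF a) u0 w0) /
      algebraMap (CR (FF a)) (KK a) (el (FF a) u1 w1) =
      (aeval (XX a) (u0 * u1 - w0 * w1 * FF a) / aeval (XX a) p) * 1 +
        (aeval (XX a) (w0 * u1 - u0 * w1) / aeval (XX a) p) * YY a := by
    rw [pr_map] at hs1
    rw [pr_map, pr_map, mul_one, div_mul_eq_mul_div, ← add_div, div_eq_div_iff hs1 hp1, hp]
    simp only [map_sub, map_mul, map_pow, ← pr_eq]
    ring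
  have hmem : ∀ q : k[X], aeval (XX a) q ∈ IntermediateField.adjoin k {XX a} := fun q =>
    IntermediateField.algebra_adjoin_le_adjoin k _ (Polynomial.aeval_mem_adjoin_singleton k _)
  have hsm : ∀ (q : k[X]) (y : KK a), y ∈ ({1, YY a} : Set (KK a)) →
      (aeval (XX a) q / aeval (XX a) p) * y ∈
        Submodule.span (IntermediateField.adjoin k {XX a}) (({1, YY a} : Finset (KK a)) : Set (KK a)) := by
    intro q y hy
    have h1 : (aeval (XX a) q / aeval (XX a) p) * y =
        (⟨aeval (XX a) q / aeval (XX a) p, div_mem (hmem q) (hmem p)⟩ :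
          IntermediateField.adjoin k {XX a}) • y := by
      rw [IntermediateField.smul_def]
      rfl
    rw [h1]
    refine Submodule.smul_mem _ _ (Submodule.subset_span ?_)
    rw [Finset.coe_pair]
    exact hy
  rw [e1]
  exact Submodule.add_mem _ (hsm _ _ (by simp)) (hsm _ _ (by simp))

end ff

section place

variable {k : Type} [Field k] [CharZero k] {g : ℕ} (a : Fin (2 * g + 1) → k)
  [ha : Fact (Function.Injective a)]

/-- The prime of the point `P`. -/
noncomputable def pr_h1 {P : k × k} (hP : P.2 ^ 2 = (FF a).eval P.1) :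
    IsDedekindDomain.HeightOneSpectrum (CR (FF a)) :=
  ⟨pI (FF a) P.1 P.2, (pI_isMaximal (FF a) hP).isPrime, pI_ne_bot (FF a) P.1 P.2⟩

/-- The place of the point `P`. -/
noncomputable def pr_pl {P : k × k} (hP : P.2 ^ 2 = (FF a).eval P.1) : Place k (KK a) where
  v := (pr_h1 a hP).valuation (KK a)
  surj := IsDedekindDomain.HeightOneSpectrum.valuation_surjective _ _
  triv := by
    have h1 : ∀ c : k, (pr_h1 a hP).valuation (KK a) (algebraMap k (KK a) c) ≤ 1 := by
      intro c
      rw [← pr_const]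
      exact IsDedekindDomain.HeightOneSpectrum.valuation_le_one _ _
    intro c hc0
    apply le_antisymm (h1 c)
    have h2 := h1 c⁻¹
    rw [map_inv₀, map_inv₀] at h2
    have h3 : (pr_h1 a hP).valuation (KK a) (algebraMap k (KK a) c) ≠ 0 := by
      rw [Valuation.ne_zero_iff]
      simpa using hc0
    rwa [inv_le_one₀ (by rwa [zero_lt_iff])] at h2

theorem pr_pl_le {P : k × k} (hP : P.2 ^ 2 = (FF a).eval P.1) (r : CR (FF a)) :
    (pr_pl a hP).v (algebraMap (CR (FF a)) (KK a) r) ≤ 1 :=
  IsDedekindDomain.HeightOneSpectrum.valuation_le_one _ _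

theorem pr_pl_lt {P : k × k} (hP : P.2 ^ 2 = (FF a).eval P.1) (r : CR (FF a)) :
    (pr_pl a hP).v (algebraMap (CR (FF a)) (KK a) r) < 1 ↔ r ∈ pI (FF a) P.1 P.2 :=
  IsDedekindDomain.HeightOneSpectrum.valuation_lt_one_iff_mem _ _

theorem pr_pl_X {P : k × k} (hP : P.2 ^ 2 = (FF a).eval P.1) :
    (pr_pl a hP).v (XX a - algebraMap k (KK a) P.1) < 1 := by
  have h1 : XX a - algebraMap k (KK a) P.1 = algebraMap (CR (FF a)) (KK a) (el (FF a) (X - C P.1) 0) := by
    rw [pr_map, map_sub, aeval_X, aeval_C, map_zero, zero_mul, add_zero]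
  rw [h1, pr_pl_lt, pI_mem (FF a) hP]
  simp

theorem pr_pl_Y {P : k × k} (hP : P.2 ^ 2 = (FF a).eval P.1) :
    (pr_pl a hP).v (YY a - algebraMap k (KK a) P.2) < 1 := by
  have h1 : YY a - algebraMap k (KK a) P.2 = algebraMap (CR (FF a)) (KK a) (el (FF a) (C (-P.2)) 1) := by
    rw [pr_map, aeval_C, map_one, one_mul, map_neg]
    ring
  rw [h1, pr_pl_lt, pI_mem (FF a) hP]
  simp

theorem pr_pl_X_le {P : k × k} (hP : P.2 ^ 2 = (FF a).eval P.1) : (pr_pl a hP).v (XX a) ≤ 1 :=
  pr_pl_le a hP _

open scoped Classical in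
/-- The order of a function with the divisor `S`. -/
theorem pr_ord {P : k × k} (hP : P.2 ^ 2 = (FF a).eval P.1) (S : Multiset (k × k)) (hS : OnC a S)
    (z : CR (FF a)) (hz : z ≠ 0) (h : Ideal.span {z} = (S.map fun P => pI (FF a) P.1 P.2).prod) :
    (pr_pl a hP).ord (algebraMap (CR (FF a)) (KK a) z) = (S.count P : ℤ) := by
  have h1 : (pr_pl a hP).v (algebraMap (CR (FF a)) (KK a) z) =
      WithZero.exp (-(multiplicity (pI (FF a) P.1 P.2) (Ideal.span {z}) : ℤ)) := by
    change (pr_h1 a hP).valuation (KK a) (algebraMap (CR (FF a)) (KK a) z) = _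
    rw [IsDedekindDomain.HeightOneSpectrum.valuation_of_algebraMap,
      IsDedekindDomain.HeightOneSpectrum.intValuation_eq_exp_neg_multiplicity _ hz]
    rfl
  unfold Place.ord
  rw [h1, WithZero.log_exp, neg_neg]
  congr 1
  have hpow : ∀ n : ℕ, (pI (FF a) P.1 P.2) ^ n =
      ((Multiset.replicate n P).map fun P => pI (FF a) P.1 P.2).prod := by
    intro n
    rw [Multiset.map_replicate, Multiset.prod_replicate]
  have hdvd : ∀ n : ℕ, (pI (FF a) P.1 P.2) ^ n ∣ Ideal.span {z} ↔ n ≤ S.count P := by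
    intro n
    rw [Multiset.le_count_iff_replicate_le]
    constructor
    · intro hd
      refine fct_unique a S (Multiset.replicate n P) hS ?_ ?_
      · intro Q hQ
        rw [Multiset.eq_of_mem_replicate hQ]
        exact hP
      · rw [← hpow, ← h]
        exact Ideal.le_of_dvd hd
    · intro hle
      obtain ⟨T, rfl⟩ := Multiset.le_iff_exists_add.1 hle
      rw [h, Multiset.map_add, Multiset.prod_add, ← hpow]
      exact dvd_mul_right _ _
  refine multiplicity_eq_of_dvd_of_not_dvd ((hdvd _).2 le_rfl) ?_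
  rw [hdvd]
  omega

omit [CharZero k] in
/-- Two places whose valuations have the same ideal are equal. -/
private theorem pr_det {K R : Type} [Field K] [Algebra k K] [CommRing R]
    [IsDedekindDomain R] [Algebra R K] [IsFractionRing R K] (v : Place k K)
    (hv : ∀ b : R, v.v (algebraMap R K b) ≤ 1) (P : IsDedekindDomain.HeightOneSpectrum R)
    (hP : ∀ b : R, b ∈ P.asIdeal ↔ v.v (algebraMap R K b) < 1) :
    v.v = P.valuation K := by
  have h1 : ∀ x : K, P.valuation K x ≤ 1 → v.v x ≤ 1 := by
    intro x hx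
    obtain ⟨n, d, h⟩ := P.exists_primeCompl_mul_eq_of_integer x hx
    have hd : v.v (algebraMap R K d) = 1 := by
      have hd := d.2
      rw [Ideal.mem_primeCompl_iff, hP, not_lt] at hd
      exact le_antisymm (hv _) hd
    have h3 := congrArg v.v h
    rw [map_mul, hd, mul_one] at h3
    rw [h3]
    exact hv _
  have h2 : ∀ x : K, P.valuation K x = 1 → v.v x = 1 := by
    intro x hx
    have hx0 : x ≠ 0 := by
      rintro rfl
      rw [map_zero] at hx
      exact zero_ne_one hx
    apply le_antisymm (h1 x hx.le)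
    have h3 := h1 x⁻¹ (by rw [map_inv₀, hx, inv_one])
    rw [map_inv₀] at h3
    exact (inv_le_one₀ (by
      rw [zero_lt_iff]; exact (Valuation.ne_zero_iff _).2 hx0)).1 h3
  obtain ⟨π, hπ⟩ := P.valuation_exists_uniformizer K
  have hπ0 : π ≠ 0 := by
    rintro rfl
    rw [map_zero] at hπ
    exact WithZero.exp_ne_zero hπ.symm
  have h3 : ∀ x : K, x ≠ 0 → v.v x = (v.v π) ^ (- WithZero.log (P.valuation K x)) := by
    intro x hx
    have hx' : P.valuation K x ≠ 0 := (Valuation.ne_zero_iff _).2 hx
    have h4 := h2 (x * π ^ (WithZero.log (P.valuation K x))) (by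
      rw [map_mul, map_zpow₀, hπ, ← WithZero.exp_zsmul]
      simp [WithZero.exp_neg, hx'])
    rw [map_mul, map_zpow₀] at h4
    rw [zpow_neg]
    exact eq_inv_of_mul_eq_one_left h4
  have hvπ : v.v π ≠ 0 := (Valuation.ne_zero_iff _).2 hπ0
  have h4 : v.v π = WithZero.exp (-1 : ℤ) := by
    have h5 : v.v π ≤ 1 := h1 π (by
      rw [hπ, ← WithZero.exp_zero, WithZero.exp_le_exp]; norm_num)
    obtain ⟨x, hx⟩ := v.surj (WithZero.exp (-1 : ℤ))
    have hx0 : x ≠ 0 := by
      rintro rfl
      rw [map_zero] at hx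
      exact WithZero.exp_ne_zero hx.symm
    rw [h3 x hx0] at hx
    have h6 := congrArg WithZero.log hx
    rw [WithZero.log_zpow, WithZero.log_exp] at h6
    have h7 : WithZero.log (v.v π) ≤ 0 := by
      rw [WithZero.log_le_iff_le_exp hvπ]; simpa using h5
    have h8 : WithZero.log (v.v π) = -1 := by
      rw [smul_eq_mul] at h6
      have h9 : WithZero.log (v.v π) ∣ 1 := ⟨WithZero.log (P.valuation K x), by linarith⟩
      rcases Int.isUnit_iff.1 (isUnit_of_dvd_one h9) with h | h
      · rw [h] at h7; norm_num at h7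
      · exact h
    rw [← h8, WithZero.exp_log hvπ]
  ext x
  by_cases hx : x = 0
  · rw [hx, map_zero, map_zero]
  · rw [h3 x hx, h4, ← WithZero.exp_zsmul]
    have hx' : P.valuation K x ≠ 0 := (Valuation.ne_zero_iff _).2 hx
    simp [hx']

omit [CharZero k] in
private theorem pr_aeval {K : Type} [Field K] [Algebra k K] (w : Place k K) (X : K)
    (hX : w.v X ≤ 1) (u : k[X]) : w.v (aeval X u) ≤ 1 := by
  induction u using Polynomial.induction_on' with
  | add p q hp hq =>
    rw [map_add]
    exact w.v.map_add_le hp hq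
  | monomial n c =>
    rw [aeval_monomial, map_mul, map_pow]
    refine mul_le_one' ?_ (pow_le_one' hX n)
    by_cases hc : c = 0
    · rw [hc, map_zero, map_zero]; exact zero_le_one
    · rw [w.triv c hc]

omit [CharZero k] in
theorem pr_le (w : Place k (KK a)) (hw : w.v (XX a) ≤ 1) (r : CR (FF a)) :
    w.v (algebraMap (CR (FF a)) (KK a) r) ≤ 1 := by
  have hY : w.v (YY a) ≤ 1 := by
    have h1 : w.v (YY a) ^ 2 ≤ 1 := by
      rw [← map_pow, pr_eq]
      exact pr_aeval w _ hw _
    by_contra hcon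
    push Not at hcon
    exact absurd h1 (not_le.2 (one_lt_pow₀ hcon two_ne_zero))
  obtain ⟨p, q, rfl⟩ := el_surj (FF a) r
  rw [pr_map]
  refine w.v.map_add_le (pr_aeval w _ hw p) ?_
  rw [map_mul]
  exact mul_le_one' (pr_aeval w _ hw q) hY

/-- Every place at which `x` is regular is the place of a point. -/
theorem pr_surj [IsAlgClosed k] (w : Place k (KK a)) (hw : w.v (XX a) ≤ 1) :
    ∃ (P : k × k) (hP : P.2 ^ 2 = (FF a).eval P.1), w = pr_pl a hP := by
  have hv := pr_le a w hw
  let I : Ideal (CR (FF a)) :=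
    { carrier := {b | w.v (algebraMap (CR (FF a)) (KK a) b) < 1}
      add_mem' := by
        intro a b ha hb
        rw [Set.mem_ofPred_eq] at ha hb ⊢
        rw [map_add]
        exact w.v.map_add_lt ha hb
      zero_mem' := by
        rw [Set.mem_ofPred_eq, map_zero, map_zero]; exact zero_lt_one
      smul_mem' := by
        intro c x hx
        rw [Set.mem_ofPred_eq] at hx ⊢
        rw [smul_eq_mul, map_mul, map_mul]
        exact lt_of_le_of_lt (mul_le_of_le_one_left' (hv c)) hx }
  have hI : ∀ b, b ∈ I ↔ w.v (algebraMap (CR (FF a)) (KK a) b) < 1 := fun b => Iff.rfl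
  have hprime : I.IsPrime := by
    refine ⟨?_, ?_⟩
    · rw [Ideal.ne_top_iff_one, hI, map_one, map_one]
      exact lt_irrefl _
    · intro x y hxy
      rw [hI, map_mul, map_mul] at hxy
      rw [hI, hI]
      by_contra hcon
      push Not at hcon
      have h1 := le_antisymm (hv x) hcon.1
      have h2 := le_antisymm (hv y) hcon.2
      rw [h1, h2, one_mul] at hxy
      exact lt_irrefl _ hxy
  have hbot : I ≠ ⊥ := by
    intro h
    obtain ⟨x, hx⟩ := w.surj (WithZero.exp (-1 : ℤ))
    have hx0 : x ≠ 0 := by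
      rintro rfl
      rw [map_zero] at hx
      exact WithZero.exp_ne_zero hx.symm
    obtain ⟨b, d, hd, hbd⟩ := IsFractionRing.div_surjective (A := CR (FF a)) x
    have hd0 : algebraMap (CR (FF a)) (KK a) d ≠ 0 := by
      intro h0
      rw [h0, div_zero] at hbd
      exact hx0 hbd.symm
    have h1 : algebraMap (CR (FF a)) (KK a) b = x * algebraMap (CR (FF a)) (KK a) d := by
      rw [← hbd, div_mul_cancel₀ _ hd0]
    have h2 : b ∈ I := by
      rw [hI, h1, map_mul, hx]
      have h3 : (WithZero.exp (-1 : ℤ)) < 1 := by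
        rw [← WithZero.exp_zero, WithZero.exp_lt_exp]
        norm_num
      exact lt_of_le_of_lt (mul_le_of_le_one_right' (hv d)) h3
    rw [h, Ideal.mem_bot] at h2
    rw [h2, map_zero] at h1
    exact mul_ne_zero hx0 hd0 h1.symm
  obtain ⟨x, y, hxy, hIp⟩ := exists_pI (FF a) I (hprime.isMaximal hbot) hbot
  refine ⟨(x, y), hxy, ?_⟩
  have h1 : w.v = (pr_pl a (P := (x, y)) hxy).v := by
    refine pr_det w hv (pr_h1 a (P := (x, y)) hxy) fun b => ?_
    change b ∈ pI (FF a) x y ↔ _
    rw [← hIp]
    exact hI b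
  rcases w with ⟨w, _, _⟩
  change w = _ at h1
  subst h1
  rfl

end place

section main

variable {k : Type} [Field k] [CharZero k] (a : Fin 5 → k) [ha : Fact (Function.Injective a)]

omit [CharZero k] in
theorem tri_ne {L : Type} [Field L] (x : L) : (![x, 1] : Fin 2 → L) ≠ 0 := by
  intro h
  exact one_ne_zero (congrFun h 1)

omit [CharZero k] in
theorem tri_eq [IsAlgClosed k] [CharZero k] {L : Type} [Field L] [Algebra k L] (x y : L)
    (h : y ^ 2 = aeval x (FF (g := 2) a)) : y ^ 2 = (quint a ha.out).F (![x, 1] : Fin 2 → L) := by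
  rw [quint_F]
  change y ^ 2 = 1 * ∏ i, (x - algebraMap k L (a i) * 1)
  rw [h, one_mul]
  unfold FF
  rw [map_prod]
  refine Finset.prod_congr rfl fun i _ => ?_
  rw [map_sub, aeval_X, aeval_C, mul_one]

variable [IsAlgClosed k]

/-- Homogeneous coordinates of the affine point `(x, y)`. -/
noncomputable def tri {x y : k} (h : y ^ 2 = (FF (g := 2) a).eval x) : (quint a ha.out).Tri k :=
  ⟨![x, 1], y, tri_ne x, tri_eq a x y (by rw [h, coe_aeval_eq_eval])⟩

/-- Homogeneous coordinates of the point at infinity. -/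
noncomputable def toi : (quint a ha.out).Tri k :=
  ⟨![1, 0], 0, fun h => one_ne_zero (congrFun h 0), by
    rw [quint_F]
    change (0 : k) ^ 2 = 0 * _
    rw [zero_mul, zero_pow two_ne_zero]⟩

/-- The point at infinity. -/
noncomputable def oo : Pts (fun _ : Unit => quint a ha.out) := ⟨(), (toi a).mk'⟩

open scoped Classical in
/-- The affine point `P = (x, y)`. -/
noncomputable def aff (P : k × k) : Pts (fun _ : Unit => quint a ha.out) :=
  if h : P.2 ^ 2 = (FF (g := 2) a).eval P.1 then ⟨(), (tri a h).mk'⟩ else oo a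

theorem aff_def {P : k × k} (h : P.2 ^ 2 = (FF (g := 2) a).eval P.1) :
    aff a P = ⟨(), (tri a h).mk'⟩ := by
  unfold aff
  rw [dif_pos h]

theorem aff_inj {P Q : k × k} (hP : P.2 ^ 2 = (FF (g := 2) a).eval P.1)
    (hQ : Q.2 ^ 2 = (FF (g := 2) a).eval Q.1) (h : aff a P = aff a Q) : P = Q := by
  rw [aff_def a hP, aff_def a hQ] at h
  have h1 : (tri a hP).mk' = (tri a hQ).mk' := eq_of_heq (Sigma.mk.inj h).2
  obtain ⟨c, hc, h2, h3⟩ := (mk'_eq_iff _ _).1 h1
  have e1 : (1 : k) = c * 1 := congrFun h2 1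
  have e0 : Q.1 = c * P.1 := congrFun h2 0
  have hc1 : c = 1 := by rw [mul_one] at e1; exact e1.symm
  have e2 : Q.2 = c ^ 3 * P.2 := h3
  rw [hc1, one_mul] at e0
  rw [hc1, one_pow, one_mul] at e2
  exact Prod.ext e0.symm e2.symm

theorem aff_wP (P : k × k) (hP : P.2 ^ 2 = (FF (g := 2) a).eval P.1) :
    aff a (wP P) = inv (aff a P) := by
  have h1 : (wP P).2 ^ 2 = (FF (g := 2) a).eval (wP P).1 := by
    change (-P.2) ^ 2 = _
    rw [neg_sq]
    exact hP
  rw [aff_def a hP, aff_def a h1]
  rfl

theorem oo_inv : inv (oo a) = oo a := by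
  have h : (toi a).neg.mk' = (toi a).mk' := by
    refine (mk'_eq_iff _ _).2 ⟨1, one_ne_zero, ?_, ?_⟩
    · rw [one_smul]; rfl
    · change (0 : k) = 1 ^ 3 * (-0)
      rw [neg_zero, mul_zero]
  change (⟨(), (toi a).mk'.inv⟩ : Pts (fun _ : Unit => quint a ha.out)) = ⟨(), (toi a).mk'⟩
  rw [← mk'_neg, h]

/-- Every point is the point at infinity or an affine point. -/
theorem exists_aff (p : Pts (fun _ : Unit => quint a ha.out)) :
    p = oo a ∨ ∃ P : k × k, P.2 ^ 2 = (FF (g := 2) a).eval P.1 ∧ p = aff a P := by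
  obtain ⟨u, q⟩ := p
  obtain ⟨t, ht⟩ := exists_mk' q
  by_cases h : t.v 1 = 0
  · left
    have h0 : t.v 0 ≠ 0 := by
      intro h0
      apply t.ne
      funext j
      fin_cases j
      · exact h0
      · exact h
    have hy : t.y = 0 := by
      have h1 := t.eq
      rw [quint_F, h, zero_mul] at h1
      exact pow_eq_zero_iff two_ne_zero |>.1 h1
    have h2 : (toi a).mk' = t.mk' := by
      refine (mk'_eq_iff _ _).2 ⟨t.v 0, h0, ?_, ?_⟩
      · funext j
        fin_cases j
        · change t.v 0 = t.v 0 * 1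
          rw [mul_one]
        · change t.v 1 = t.v 0 * 0
          rw [h, mul_zero]
      · change t.y = _ * 0
        rw [hy, mul_zero]
    change (⟨(), q⟩ : Pts (fun _ : Unit => quint a ha.out)) = ⟨(), (toi a).mk'⟩
    rw [h2, ht]
  · right
    have h1 := quint_eq a t h
    refine ⟨(t.v 0 / t.v 1, t.y / t.v 1 ^ 3), h1, ?_⟩
    rw [aff_def a (P := (t.v 0 / t.v 1, t.y / t.v 1 ^ 3)) h1]
    have h2 : (tri a h1).mk' = t.mk' := by
      refine (mk'_eq_iff _ _).2 ⟨t.v 1, h, ?_, ?_⟩
      · funext j
        fin_cases j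
        · change t.v 0 = t.v 1 * (t.v 0 / t.v 1)
          rw [mul_div_cancel₀ _ h]
        · change t.v 1 = t.v 1 * 1
          rw [mul_one]
      · change t.y = t.v 1 ^ 3 * (t.y / t.v 1 ^ 3)
        rw [mul_div_cancel₀ _ (pow_ne_zero 3 h)]
    change (⟨(), q⟩ : Pts (fun _ : Unit => quint a ha.out)) = ⟨(), (tri a h1).mk'⟩
    rw [h2, ht]

/-- The generic point. -/
noncomputable def gen : (quint a ha.out).Tri (KK (g := 2) a) :=
  ⟨![XX (g := 2) a, 1], YY (g := 2) a, tri_ne _, tri_eq a _ _ (pr_eq (g := 2) a)⟩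

theorem spec_fin {P : k × k} (hP : P.2 ^ 2 = (FF (g := 2) a).eval P.1) :
    Spec (pr_pl (g := 2) a hP) (gen a) (tri a hP).mk' := by
  refine ⟨1, tri a hP, rfl, ?_, ?_⟩
  · intro j
    fin_cases j
    · change (pr_pl (g := 2) a hP).v (1 * XX (g := 2) a - algebraMap k _ P.1) < 1
      rw [one_mul]
      exact pr_pl_X (g := 2) a hP
    · change (pr_pl (g := 2) a hP).v (1 * 1 - algebraMap k _ 1) < 1
      rw [one_mul, map_one, sub_self, map_zero]
      exact zero_lt_one
  · change (pr_pl (g := 2) a hP).v (1 ^ 3 * YY (g := 2) a - algebraMap k _ P.2) < 1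
    rw [one_pow, one_mul]
    exact pr_pl_Y (g := 2) a hP

theorem spec_inf (w : Place k (KK (g := 2) a)) (hw : 1 < w.v (XX (g := 2) a)) :
    Spec w (gen a) (toi a).mk' := by
  have hX0 : XX (g := 2) a ≠ 0 := by
    intro h
    rw [h, map_zero] at hw
    exact absurd hw (not_lt.2 zero_le_one)
  have hne : (![1, 0] : Fin 2 → k) ≠ 0 := fun h => one_ne_zero (congrFun h 0)
  obtain ⟨t, ht1, -, ht3⟩ := spec_lift (pr_ff (g := 2) a) w (gen a) (XX (g := 2) a)⁻¹ ![1, 0] hne (by
    intro j
    fin_cases j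
    · change w.v ((XX (g := 2) a)⁻¹ * XX (g := 2) a - algebraMap k _ 1) < 1
      rw [inv_mul_cancel₀ hX0, map_one, sub_self, map_zero]
      exact zero_lt_one
    · change w.v ((XX (g := 2) a)⁻¹ * 1 - algebraMap k _ 0) < 1
      rw [mul_one, map_zero, sub_zero, map_inv₀]
      exact inv_lt_one_of_one_lt₀ hw)
  have h0 : t.v 0 = 1 := by rw [ht1]; rfl
  have h1 : t.v 1 = 0 := by rw [ht1]; rfl
  have hy : t.y = 0 := by
    have h2 := t.eq
    rw [quint_F, h1, zero_mul] at h2
    exact pow_eq_zero_iff two_ne_zero |>.1 h2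
  have h2 : (toi a).mk' = t.mk' := by
    refine (mk'_eq_iff _ _).2 ⟨1, one_ne_zero, ?_, ?_⟩
    · rw [one_smul, ht1]; rfl
    · change t.y = _ * 0
      rw [hy, mul_zero]
  rw [h2]
  exact ht3

/-- The divisor of a function has degree zero. -/
private theorem pr_deg {K : Type} [Field K] [Algebra k K] (hK : IsFunctionField k K) (f : K)
    (hf : f ≠ 0) : ∃ S : Finset (Place k K), (∀ w, w ∉ S → w.ord f = 0) ∧
      ∑ w ∈ S, w.ord f = 0 := by
  by_cases ht : Transcendental k f
  · obtain ⟨N, hN, f0, f1, s0, s1⟩ := deg_zero hK f ht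
    set A0 : Finset (Place k K) := f0.toFinset with hA0
    set A1 : Finset (Place k K) := f1.toFinset with hA1
    have m0 : ∀ w, w ∈ A0 ↔ w.v f < 1 := fun w => by
      rw [hA0, Set.Finite.mem_toFinset]; rfl
    have m1 : ∀ w, w ∈ A1 ↔ 1 < w.v f := fun w => by
      rw [hA1, Set.Finite.mem_toFinset]; rfl
    have hdis : Disjoint A0 A1 := by
      rw [Finset.disjoint_left]
      intro w h h'
      rw [m0] at h
      rw [m1] at h'
      exact lt_asymm h h'
    classical
    refine ⟨A0 ∪ A1, fun w hw => ?_, ?_⟩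
    · rw [Finset.mem_union, m0, m1, not_or, not_lt, not_lt] at hw
      have h1 : w.v f = 1 := le_antisymm hw.2 hw.1
      unfold Place.ord
      rw [h1, WithZero.log_one, neg_zero]
    · have t0 : ∑ w ∈ A0, w.ord f = (N : ℤ) := by
        rw [← s0]
        exact (finsum_mem_eq_finite_toFinset_sum (fun w : Place k K => w.ord f) f0).symm
      have t1 : ∑ w ∈ A1, w.ord f = -(N : ℤ) := by
        rw [← s1]
        exact (finsum_mem_eq_finite_toFinset_sum (fun w : Place k K => w.ord f) f1).symm
      rw [Finset.sum_union hdis, t0, t1, add_neg_cancel]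
  · obtain ⟨x, rfl⟩ : ∃ x : k, algebraMap k K x = f := by
      rw [transcendental_iff] at ht
      push Not at ht
      obtain ⟨P, hP, hP0⟩ := ht
      have hs := IsAlgClosed.splits P
      rw [hs.eq_prod_roots, map_mul, Polynomial.aeval_C, map_multiset_prod, Multiset.map_map] at hP
      rcases mul_eq_zero.1 hP with h | h
      · exfalso
        apply hP0
        rw [← Polynomial.leadingCoeff_eq_zero]
        exact (map_eq_zero (algebraMap k K)).1 h
      · rw [Multiset.prod_eq_zero_iff, Multiset.mem_map] at h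
        obtain ⟨r, -, hr⟩ := h
        refine ⟨r, ?_⟩
        simp only [Function.comp_apply, map_sub, Polynomial.aeval_X, Polynomial.aeval_C] at hr
        exact (sub_eq_zero.1 hr).symm
    refine ⟨∅, fun w _ => ?_, Finset.sum_empty⟩
    have hx : x ≠ 0 := by
      rintro rfl
      exact hf (map_zero _)
    unfold Place.ord
    rw [w.triv x hx, WithZero.log_one, neg_zero]

/-- MAIN THEOREM.  A multiset of affine points whose class is trivial is rationally equivalent to a
multiple of the point at infinity. -/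
theorem prin (S : Multiset (k × k)) (hS : OnC (g := 2) a S) (h : clS (g := 2) a S = 1) :
    (S.map fun P => pt (aff a P)).sum - (Multiset.card S) • pt (oo a) ∈
      ratZero (fun _ : Unit => quint a ha.out) := by
  classical
  obtain ⟨u, w, h0, hz⟩ := (cl_prod_eq_one_iff (g := 2) a S).1 h
  set z : CR (FF (g := 2) a) := el (FF (g := 2) a) u w with hzd
  have hz0 : z ≠ 0 := by
    intro hc
    rw [hzd, ← el_zero] at hc
    obtain ⟨h1, h2⟩ := el_inj _ hc
    rcases h0 with h0 | h0
    · exact h0 h1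
    · exact h0 h2
  have hK := pr_ff (g := 2) a
  set f : KK (g := 2) a := algebraMap (CR (FF (g := 2) a)) (KK (g := 2) a) z with hfd
  have hf : f ≠ 0 := by
    intro hc
    exact hz0 (pr_inj (g := 2) a (hc.trans (map_zero _).symm))
  obtain ⟨D, hD, hD0⟩ := pr_deg hK f hf
  -- the values of the generic point
  choose val hval using fun w : Place k (KK (g := 2) a) => Spec.exists hK w (gen a)
  have hvalfin : ∀ (P : k × k) (hP : P.2 ^ 2 = (FF (g := 2) a).eval P.1),
      (⟨(), val (pr_pl (g := 2) a hP)⟩ : Pts (fun _ : Unit => quint a ha.out)) = aff a P := by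
    intro P hP
    rw [aff_def a hP, Spec.unique hK _ _ (hval _) (spec_fin a hP)]
  have hvalinf : ∀ w : Place k (KK (g := 2) a), 1 < w.v (XX (g := 2) a) →
      (⟨(), val w⟩ : Pts (fun _ : Unit => quint a ha.out)) = oo a := by
    intro w hw
    unfold oo
    rw [Spec.unique hK _ _ (hval _) (spec_inf a w hw)]
  -- the places of the points
  have hP0 : ((a 0, 0) : k × k).2 ^ 2 = (FF (g := 2) a).eval ((a 0, 0) : k × k).1 := by
    change (0 : k) ^ 2 = (FF (g := 2) a).eval (a 0)
    unfold FF
    rw [eval_prod, zero_pow two_ne_zero]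
    symm
    exact Finset.prod_eq_zero (Finset.mem_univ (0 : Fin (2 * 2 + 1))) (by simp)
  let pl : k × k → Place k (KK (g := 2) a) := fun P =>
    if hP : P.2 ^ 2 = (FF (g := 2) a).eval P.1 then pr_pl (g := 2) a hP else pr_pl (g := 2) a hP0
  have hpl : ∀ (P : k × k) (hP : P.2 ^ 2 = (FF (g := 2) a).eval P.1),
      pl P = pr_pl (g := 2) a hP := fun P hP => dif_pos hP
  have hinj : ∀ P ∈ S.toFinset, ∀ Q ∈ S.toFinset, pl P = pl Q → P = Q := by
    intro P hP Q hQ hPQ
    have hP' := hS P (Multiset.mem_toFinset.1 hP)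
    have hQ' := hS Q (Multiset.mem_toFinset.1 hQ)
    rw [hpl P hP', hpl Q hQ'] at hPQ
    have h1 := hvalfin P hP'
    rw [hPQ, hvalfin Q hQ'] at h1
    exact (aff_inj a hQ' hP' h1).symm
  have key : ∀ {M : Type} [AddCommGroup M] (q : Place k (KK (g := 2) a) → M),
      ∑ w ∈ D with w.v (XX (g := 2) a) ≤ 1, w.ord f • q w =
        ∑ P ∈ S.toFinset, S.count P • q (pl P) := by
    intro M _ q
    have h1 : ∑ P ∈ S.toFinset, S.count P • q (pl P) =
        ∑ w ∈ S.toFinset.image pl, w.ord f • q w := by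
      rw [Finset.sum_image hinj]
      refine Finset.sum_congr rfl fun P hP => ?_
      have hP' := hS P (Multiset.mem_toFinset.1 hP)
      rw [hpl P hP', hfd, pr_ord (g := 2) a hP' S hS z hz0 hz.symm, natCast_zsmul]
    rw [h1]
    symm
    refine Finset.sum_subset ?_ ?_
    · intro w hw
      obtain ⟨P, hP, rfl⟩ := Finset.mem_image.1 hw
      have hP' := hS P (Multiset.mem_toFinset.1 hP)
      rw [Finset.mem_filter]
      refine ⟨?_, ?_⟩
      · by_contra hc
        have h2 := hD _ hc
        rw [hpl P hP', hfd, pr_ord (g := 2) a hP' S hS z hz0 hz.symm] at h2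
        have h3 : 0 < S.count P := Multiset.count_pos.2 (Multiset.mem_toFinset.1 hP)
        omega
      · rw [hpl P hP']
        exact pr_pl_X_le (g := 2) a hP'
    · intro w hw hw'
      rw [Finset.mem_filter] at hw
      obtain ⟨P, hP, rfl⟩ := pr_surj (g := 2) a w hw.2
      have h2 : P ∉ S.toFinset := by
        intro hc
        exact hw' (Finset.mem_image.2 ⟨P, hc, hpl P hP⟩)
      rw [hfd, pr_ord (g := 2) a hP S hS z hz0 hz.symm,
        Multiset.count_eq_zero.2 (fun hc => h2 (Multiset.mem_toFinset.2 hc)), Nat.cast_zero,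
        zero_smul]
  -- the divisor
  have hcard : ∑ w ∈ D with w.v (XX (g := 2) a) ≤ 1, w.ord f = (Multiset.card S : ℤ) := by
    have h1 := key (M := ℤ) (fun _ => 1)
    simp only [smul_eq_mul, mul_one, nsmul_eq_mul] at h1
    rw [h1, ← Nat.cast_sum, Multiset.toFinset_sum_count_eq]
  have hinf : ∑ w ∈ D with ¬ w.v (XX (g := 2) a) ≤ 1, w.ord f = -(Multiset.card S : ℤ) := by
    have h1 := Finset.sum_filter_add_sum_filter_not D
      (fun w : Place k (KK (g := 2) a) => w.v (XX (g := 2) a) ≤ 1) (fun w => w.ord f)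
    rw [hD0, hcard] at h1
    linarith
  have hmain : (S.map fun P => pt (aff a P)).sum - (Multiset.card S) • pt (oo a) =
      ∑ w ∈ D, Finsupp.single ({(⟨(), val w⟩ : Pts (fun _ : Unit => quint a ha.out))} :
        Multiset (Pts (fun _ : Unit => quint a ha.out))) (w.ord f) := by
    have hs : ∀ w : Place k (KK (g := 2) a),
        Finsupp.single ({(⟨(), val w⟩ : Pts (fun _ : Unit => quint a ha.out))} :
          Multiset (Pts (fun _ : Unit => quint a ha.out))) (w.ord f) =
        w.ord f • pt (⟨(), val w⟩ : Pts (fun _ : Unit => quint a ha.out)) := by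
      intro w
      unfold pt
      rw [Finsupp.smul_single, smul_eq_mul, mul_one]
    rw [Finset.sum_congr rfl fun w _ => hs w, ← Finset.sum_filter_add_sum_filter_not D
      (fun w : Place k (KK (g := 2) a) => w.v (XX (g := 2) a) ≤ 1), key, sub_eq_add_neg]
    congr 1
    · rw [Finset.sum_multiset_map_count]
      refine Finset.sum_congr rfl fun P hP => ?_
      have hP' := hS P (Multiset.mem_toFinset.1 hP)
      rw [hpl P hP', hvalfin P hP']
    · have h1 : ∀ w ∈ D.filter (fun w : Place k (KK (g := 2) a) => ¬ w.v (XX (g := 2) a) ≤ 1),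
          w.ord f • pt (⟨(), val w⟩ : Pts (fun _ : Unit => quint a ha.out)) =
          w.ord f • pt (oo a) := by
        intro w hw
        rw [Finset.mem_filter, not_le] at hw
        rw [hvalinf w hw.2]
      rw [Finset.sum_congr rfl h1, ← Finset.sum_smul, hinf, neg_smul, natCast_zsmul]
  refine AddSubgroup.subset_closure ?_
  refine ⟨KK (g := 2) a, inferInstance, inferInstance, hK, Unit, inferInstance, fun _ => (),
    fun _ => gen a, f, hf, fun s => ?_⟩
  rw [hmain, Finsupp.finsetSum_apply]
  have hx : ∀ w : Place k (KK (g := 2) a), (∃ p : Unit → (quint a ha.out).Pt,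
      (∀ j, Spec w (gen a) (p j)) ∧ s = (Finset.univ : Finset Unit).val.map
        (fun j => (⟨(), p j⟩ : Pts (fun _ : Unit => quint a ha.out)))) ↔
      ({(⟨(), val w⟩ : Pts (fun _ : Unit => quint a ha.out))} :
        Multiset (Pts (fun _ : Unit => quint a ha.out))) = s := by
    intro w
    constructor
    · rintro ⟨p, hp, rfl⟩
      have h1 : p () = val w := Spec.unique hK w (gen a) (hp ()) (hval w)
      change _ = Multiset.map _ {()}
      rw [Multiset.map_singleton, h1]
    · rintro rfl
      refine ⟨fun _ => val w, fun _ => hval w, ?_⟩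
      change _ = Multiset.map _ {()}
      rw [Multiset.map_singleton]
  have h1 : ∀ w : Place k (KK (g := 2) a), (∑ᶠ (_ : ∃ p : Unit → (quint a ha.out).Pt,
      (∀ j, Spec w (gen a) (p j)) ∧ s = (Finset.univ : Finset Unit).val.map
        (fun j => (⟨(), p j⟩ : Pts (fun _ : Unit => quint a ha.out)))), w.ord f) =
      if ({(⟨(), val w⟩ : Pts (fun _ : Unit => quint a ha.out))} :
        Multiset (Pts (fun _ : Unit => quint a ha.out))) = s then w.ord f else 0 := by
    intro w
    rw [finsum_eq_if]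
    by_cases h2 : ({(⟨(), val w⟩ : Pts (fun _ : Unit => quint a ha.out))} :
        Multiset (Pts (fun _ : Unit => quint a ha.out))) = s
    · rw [if_pos h2, if_pos ((hx w).2 h2)]
    · rw [if_neg h2, if_neg fun h3 => h2 ((hx w).1 h3)]
  refine Eq.trans ?_ (finsum_congr h1).symm
  rw [finsum_eq_sum_of_support_subset (s := D)]
  · refine Finset.sum_congr rfl fun w _ => ?_
    rw [Finsupp.single_apply]
  · intro w hw
    rw [Function.mem_support] at hw
    by_contra h2
    apply hw
    rw [hD w h2]
    split_ifs <;> rfl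

/-- The cycle `Σ e_P` of a multiset of affine points. -/
noncomputable def eS (S : Multiset (k × k)) : Cyc (fun _ : Unit => quint a ha.out) :=
  (S.map fun P => ee (aff a P)).sum

theorem eS_zero : eS a 0 = 0 := rfl

theorem eS_add (S T : Multiset (k × k)) : eS a (S + T) = eS a S + eS a T := by
  unfold eS
  rw [Multiset.map_add, Multiset.sum_add]

theorem eS_nsmul (S : Multiset (k × k)) (n : ℕ) : eS a (n • S) = n • eS a S := by
  induction n with
  | zero => rw [zero_smul, zero_smul, eS_zero]
  | succ n ih => rw [succ_nsmul, succ_nsmul, eS_add, ih]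

theorem eS_single (P : k × k) : eS a {P} = ee (aff a P) := by
  unfold eS
  rw [Multiset.map_singleton, Multiset.sum_singleton]

omit [CharZero k] [IsAlgClosed k] in
theorem inv_inv'' (P : Pts (fun _ : Unit => quint a ha.out)) : inv (inv P) = P := by
  obtain ⟨i, p⟩ := P
  simp only [inv]
  rw [Pt.inv_inv]

theorem eS_wS {S : Multiset (k × k)} (hS : OnC (g := 2) a S) : eS a (wS S) = - eS a S := by
  unfold eS wS
  rw [Multiset.map_map, ← Multiset.sum_map_neg', Multiset.map_map]
  congr 1
  refine Multiset.map_congr rfl fun P hP => ?_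
  change ee (aff a (wP P)) = - ee (aff a P)
  rw [aff_wP a P (hS P hP)]
  unfold ee
  rw [inv_inv'', neg_sub]

/-- A multiset of affine points whose class is trivial gives a rational equivalence of the `e_P`. -/
theorem prin_ee (S : Multiset (k × k)) (hS : OnC (g := 2) a S) (h : clS (g := 2) a S = 1) :
    eS a S ∈ ratZero (fun _ : Unit => quint a ha.out) := by
  have h1 := prin a S hS h
  have h2 := prin a (wS S) (onC_wS (g := 2) a hS) (by rw [clS_wS (g := 2) a hS, h, inv_one])
  have h3 := sub_mem h1 h2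
  have h4 : eS a S = (S.map fun P => pt (aff a P)).sum - (Multiset.card S) • pt (oo a) -
      (((wS S).map fun P => pt (aff a P)).sum - (Multiset.card (wS S)) • pt (oo a)) := by
    rw [card_wS, sub_sub_sub_cancel_right]
    unfold eS wS
    rw [Multiset.map_map, ← Multiset.sum_map_sub]
    congr 1
    refine Multiset.map_congr rfl fun P hP => ?_
    change ee (aff a P) = pt (aff a P) - pt (aff a (wP P))
    rw [aff_wP a P (hS P hP)]
    rfl
  rw [h4]
  exact h3

/-- The relation of the cycles that follows from a relation of the classes. -/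
theorem rel_ee {S S' : Multiset (k × k)} (hS : OnC (g := 2) a S) (hS' : OnC (g := 2) a S')
    {N M : ℕ} (h : clS (g := 2) a S ^ N = clS (g := 2) a S' ^ M) :
    N • eS a S - M • eS a S' ∈ ratZero (fun _ : Unit => quint a ha.out) := by
  have hn : ∀ (n : ℕ) {T : Multiset (k × k)}, OnC (g := 2) a T → OnC (g := 2) a (n • T) := by
    intro n T hT P hP
    rw [Multiset.mem_nsmul] at hP
    exact hT P hP.2
  have h1 := prin_ee a (N • S + M • wS S') ((onC_add (g := 2) a).2
    ⟨hn N hS, hn M (onC_wS (g := 2) a hS')⟩) (by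
      rw [clS_add, clS_nsmul, clS_nsmul, clS_wS (g := 2) a hS', h, inv_pow]
      exact mul_inv_cancel _)
  rw [eS_add, eS_nsmul, eS_nsmul, eS_wS a hS', smul_neg, ← sub_eq_add_neg] at h1
  exact h1

theorem phi_aff {P : k × k} (hP : P.2 ^ 2 = (FF (g := 2) a).eval P.1) :
    phi a (ee (aff a P)) = (2 : ℤ) • Additive.ofMul (cl (g := 2) a P.1 P.2) := by
  rw [phi_ee, aff_def a hP]
  have h1 : (tri a hP).v 1 ≠ 0 := one_ne_zero
  have h2 := cp_mk a (tri a hP) h1
  have e0 : (tri a hP).v 0 = P.1 := rfl
  have e1 : (tri a hP).v 1 = 1 := rfl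
  have e2 : (tri a hP).y = P.2 := rfl
  rw [e0, e1, e2, one_pow, div_one, div_one] at h2
  change (2 : ℤ) • Additive.ofMul (cp a (tri a hP).mk') = _
  rw [h2]
  rfl

theorem ee_oo : ee (oo a) = 0 := by
  unfold ee
  rw [oo_inv, sub_self]

end main

end GJ
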