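import Pool.Agent.H95.GJ.Prin
import Pool.Agent.H95.GJ.Mul
import Pool.Agent.H95.HK.Gal
import Pool.Agent.H95.HK.FinT

/-!
# GJ, Tow: annihilators of infinite rank

Project GJ, helper95.
PROOF.  `claim` gives `S = {T, U}` with `N (e_T + e_U) = M z` modulo torsion; `(e_T + e_U) (e_T - e_U) = e_T ^ 2 - e_U ^ 2 = 0`, so `z (e_T - e_U) = 0` modulo torsion.
The recursion: `L` contains the coordinates of the points found before, the automorphism `s_n` fixes them and moves `T_n`; if `Σ m_i b_i` is torsion, apply the `s_n` of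
the largest index and subtract.
-/

set_option autoImplicit false

namespace GJ

open Polynomial HK ZC HJ

/-- The claim of the note: see `Tow.lean`. -/
def Claim (a : Fin (2 * 2 + 1) → AK) [Fact (Function.Injective a)] : Prop :=
  ∀ Sc : Multiset (AK × AK), OnC a Sc → (∀ m : ℕ, 0 < m → clS a Sc ^ m ≠ 1) → ∀ L : Finset AK,
    ∃ (S : Multiset (AK × AK)) (M N : ℕ) (s : AK ≃ₐ[ℚ] AK) (T : AK × AK), OnC a S ∧
      Multiset.card S ≤ 2 ∧ T ∈ S ∧ 0 < M ∧ 0 < N ∧ clS a S ^ N = clS a Sc ^ M ∧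
      (∀ x ∈ L, s x = x) ∧ (∀ i, s (a i) = a i) ∧ (∀ P ∈ Sc, s P.1 = P.1 ∧ s P.2 = P.2) ∧
      ∀ m : ℕ, 0 < m → (cl a (s T.1) (s T.2) * (cl a T.1 T.2)⁻¹) ^ m ≠ 1

section indep

theorem indep {G : Type*} [AddCommGroup G] (Tz : AddSubgroup G) (b : ℕ → G) (σ : ℕ → G →+ G)
    (hσ : ∀ n, ∀ c ∈ Tz, σ n c ∈ Tz) (hfix : ∀ n, ∀ i < n, σ n (b i) = b i)
    (hne : ∀ (n : ℕ) (m : ℤ), m • (σ n (b n) - b n) ∈ Tz → m = 0) (z : G)
    (hz : ∀ n, σ n z = z) (n : ℕ →₀ ℤ) (h : z + (n.sum fun j c => c • b j) ∈ Tz) : n = 0 := by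
  by_contra hn
  have hs : n.support.Nonempty := Finsupp.support_nonempty_iff.2 hn
  set j₀ := n.support.max' hs with hj₀
  have hj : j₀ ∈ n.support := Finset.max'_mem _ hs
  have h1 : σ j₀ (z + n.sum fun j c => c • b j) - (z + n.sum fun j c => c • b j) =
      n j₀ • (σ j₀ (b j₀) - b j₀) := by
    rw [map_add, hz, add_sub_add_left_eq_sub, Finsupp.sum, map_sum, ← Finset.sum_sub_distrib]
    refine (Finset.sum_eq_single_of_mem j₀ hj fun i hi hij => ?_).trans ?_
    · rw [map_zsmul, hfix j₀ i (lt_of_le_of_ne (Finset.le_max' _ _ hi) hij), sub_self]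
    · rw [map_zsmul, smul_sub]
  have h2 := hne j₀ (n j₀) (by rw [← h1]; exact sub_mem (hσ _ _ h) h)
  exact (Finsupp.mem_support_iff.1 hj) h2

end indep

section gal

variable {k : Type} [Field k] [IsAlgClosed k] [CharZero k] (a : Fin 5 → k)
  [ha : Fact (Function.Injective a)] (σ : k ≃+* k) (hσ : ∀ i, σ (a i) = a i)

include hσ in
omit [IsAlgClosed k] [CharZero k] in
theorem gal_r (i : Fin (2 * 3)) (j : Fin 2) :
    σ ((quint a ha.out).r i j) = (quint a ha.out).r i j := by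
  by_cases hi : (i : ℕ) < 5
  · have h : (quint a ha.out).r i = ![a ⟨i, hi⟩, 1] := dif_pos hi
    rw [h]
    fin_cases j
    · exact hσ _
    · exact map_one σ
  · have h : (quint a ha.out).r i = ![-1, 0] := dif_neg hi
    rw [h]
    fin_cases j
    · change σ (-1) = -1
      rw [map_neg, map_one]
    · exact map_zero σ

/-- The action of an automorphism of the ground field on zero-cycles. -/
noncomputable def gm : Cyc (fun _ : Unit => quint a ha.out) →+ Cyc (fun _ : Unit => quint a ha.out) :=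
  cycMap (quint a ha.out) σ (gal_r a σ hσ)

theorem gm_tors (c : Cyc (fun _ : Unit => quint a ha.out)) (hc : Tors _ c) :
    Tors _ (gm a σ hσ c) :=
  cyc_tors (quint a ha.out) σ (gal_r a σ hσ) c hc

include hσ in
omit [IsAlgClosed k] [CharZero k] ha in
theorem gal_on {P : k × k} (hP : P.2 ^ 2 = (FF (g := 2) a).eval P.1) :
    (σ P.2) ^ 2 = (FF (g := 2) a).eval (σ P.1) := by
  rw [← map_pow, hP]
  unfold FF
  rw [eval_prod, eval_prod, map_prod]
  refine Finset.prod_congr rfl fun i _ => ?_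
  rw [eval_sub, eval_X, eval_C, eval_sub, eval_X, eval_C, map_sub]
  congr 1
  exact hσ i

theorem gm_aff {P : k × k} (hP : P.2 ^ 2 = (FF (g := 2) a).eval P.1) :
    gm a σ hσ (ee (aff a P)) = ee (aff a (σ P.1, σ P.2)) := by
  unfold gm
  rw [cycMap_ee]
  congr 1
  rw [aff_def a hP, aff_def a (P := (σ P.1, σ P.2)) (gal_on a σ hσ hP)]
  unfold ptsMap
  rw [ptMap_mk]
  have h1 : triMap (quint a ha.out) σ (gal_r a σ hσ) (tri a hP) =
      tri a (gal_on a σ hσ hP) := by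
    unfold triMap tri
    congr 1
    funext j
    fin_cases j
    · rfl
    · exact map_one σ
  rw [h1]

/-- If the class of `T' - T` is not torsion then `e_T' - e_T` is not torsion. -/
theorem not_tors {T T' : k × k} (hT : T.2 ^ 2 = (FF (g := 2) a).eval T.1)
    (hT' : T'.2 ^ 2 = (FF (g := 2) a).eval T'.1)
    (h : ∀ m : ℕ, 0 < m → (cl (g := 2) a T'.1 T'.2 * (cl (g := 2) a T.1 T.2)⁻¹) ^ m ≠ 1) (m : ℤ)
    (ht : Tors _ (m • (ee (aff a T') - ee (aff a T)))) : m = 0 := by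
  by_contra hm
  obtain ⟨N, hN, h1⟩ := ht
  have h2 := phi_rat a _ h1
  rw [map_nsmul, map_zsmul, map_sub, phi_aff a hT, phi_aff a hT', ← smul_sub, ← ofMul_div,
    div_eq_mul_inv, smul_smul, ← natCast_zsmul, smul_smul] at h2
  set x := cl (g := 2) a T'.1 T'.2 * (cl (g := 2) a T.1 T.2)⁻¹ with hx
  have h3 : x ^ ((N : ℤ) * (m * 2)) = 1 := by
    rw [← ofMul_zpow] at h2
    exact h2
  have h4 : (N : ℤ) * (m * 2) ≠ 0 := by
    have : (N : ℤ) ≠ 0 := by exact_mod_cast hN.ne'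
    exact mul_ne_zero this (mul_ne_zero hm two_ne_zero)
  have h5 : x ^ ((N : ℤ) * (m * 2)).natAbs = 1 := by
    rcases Int.natAbs_eq ((N : ℤ) * (m * 2)) with h6 | h6
    · rw [h6, zpow_natCast] at h3
      exact h3
    · rw [h6, zpow_neg, zpow_natCast, inv_eq_one] at h3
      exact h3
  exact h _ (Int.natAbs_pos.2 h4) h5

end gal

section tower

variable (a : Fin 5 → AK) [ha : Fact (Function.Injective a)]

/-- The data of one step of the recursion. -/
private structure Dat where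
  S : Multiset (AK × AK)
  M : ℕ
  N : ℕ
  s : AK ≃ₐ[ℚ] AK
  T : AK × AK

private theorem exists_seq (hcl : Claim a) (Sc : Multiset (AK × AK)) (hSc : OnC (g := 2) a Sc)
    (hc : ∀ m : ℕ, 0 < m → clS (g := 2) a Sc ^ m ≠ 1) :
    ∃ D : ℕ → Dat, (∀ n, OnC (g := 2) a (D n).S ∧ Multiset.card (D n).S ≤ 2 ∧ (D n).T ∈ (D n).S ∧
      0 < (D n).M ∧ 0 < (D n).N ∧
      clS (g := 2) a (D n).S ^ (D n).N = clS (g := 2) a Sc ^ (D n).M ∧
      (∀ i, (D n).s (a i) = a i) ∧ (∀ P ∈ Sc, (D n).s P.1 = P.1 ∧ (D n).s P.2 = P.2) ∧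
      ∀ m : ℕ, 0 < m → (cl (g := 2) a ((D n).s (D n).T.1) ((D n).s (D n).T.2) *
        (cl (g := 2) a (D n).T.1 (D n).T.2)⁻¹) ^ m ≠ 1) ∧
      ∀ i n, i < n → ∀ P ∈ (D i).S, (D n).s P.1 = P.1 ∧ (D n).s P.2 = P.2 := by
  classical
  refine exists_seq_of_forall_finset_exists
    (fun D : Dat => OnC (g := 2) a D.S ∧ Multiset.card D.S ≤ 2 ∧ D.T ∈ D.S ∧
      0 < D.M ∧ 0 < D.N ∧ clS (g := 2) a D.S ^ D.N = clS (g := 2) a Sc ^ D.M ∧
      (∀ i, D.s (a i) = a i) ∧ (∀ P ∈ Sc, D.s P.1 = P.1 ∧ D.s P.2 = P.2) ∧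
      ∀ m : ℕ, 0 < m → (cl (g := 2) a (D.s D.T.1) (D.s D.T.2) *
        (cl (g := 2) a D.T.1 D.T.2)⁻¹) ^ m ≠ 1)
    (fun D D' : Dat => ∀ P ∈ D.S, D'.s P.1 = P.1 ∧ D'.s P.2 = P.2) ?_
  intro s _
  obtain ⟨S, M, N, σ, T, h1, h2, h3, h4, h5, h6, h7, h8, h9, h10⟩ := hcl Sc hSc hc
    (s.biUnion fun D => D.S.toFinset.image Prod.fst ∪ D.S.toFinset.image Prod.snd)
  refine ⟨⟨S, M, N, σ, T⟩, ⟨h1, h2, h3, h4, h5, h6, h8, h9, h10⟩, ?_⟩
  intro D hD P hP
  refine ⟨h7 _ ?_, h7 _ ?_⟩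
  · exact Finset.mem_biUnion.2 ⟨D, hD, Finset.mem_union_left _
      (Finset.mem_image.2 ⟨P, Multiset.mem_toFinset.2 hP, rfl⟩)⟩
  · exact Finset.mem_biUnion.2 ⟨D, hD, Finset.mem_union_right _
      (Finset.mem_image.2 ⟨P, Multiset.mem_toFinset.2 hP, rfl⟩)⟩

/-- Zero-cycles on points that are fixed by the automorphism. -/
private theorem gm_fix (σ : AK ≃+* AK) (hσ : ∀ i, σ (a i) = a i) {S : Multiset (AK × AK)}
    (hS : OnC (g := 2) a S) (h : ∀ P ∈ S, σ P.1 = P.1 ∧ σ P.2 = P.2) :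
    gm a σ hσ (eS a S) = eS a S := by
  induction S using Multiset.induction_on with
  | empty => rw [eS_zero, map_zero]
  | cons P S ih =>
    have h1 : P.2 ^ 2 = (FF (g := 2) a).eval P.1 := hS P (Multiset.mem_cons_self _ _)
    have h2 : eS a (P ::ₘ S) = ee (aff a P) + eS a S := by
      unfold eS
      rw [Multiset.map_cons, Multiset.sum_cons]
    have h3 := h P (Multiset.mem_cons_self _ _)
    rw [h2, map_add, ih (fun Q hQ => hS Q (Multiset.mem_cons_of_mem hQ))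
      (fun Q hQ => h Q (Multiset.mem_cons_of_mem hQ)), gm_aff a σ hσ h1]
    congr 3
    exact Prod.ext h3.1 h3.2

private theorem exists_U {S : Multiset (AK × AK)} (hS : Multiset.card S ≤ 1) :
    ∃ U : Pts (fun _ : Unit => quint a ha.out), ee U = eS a S := by
  rcases Nat.lt_or_ge (Multiset.card S) 1 with h | h
  · have h0 : S = 0 := Multiset.card_eq_zero.1 (by omega)
    subst h0
    exact ⟨oo a, by rw [ee_oo, eS_zero]⟩
  · obtain ⟨P, rfl⟩ := Multiset.card_eq_one.1 (le_antisymm hS h)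
    exact ⟨aff a P, (eS_single a P).symm⟩

theorem core (hcl : Claim a) (Sc : Multiset (AK × AK)) (hSc : OnC (g := 2) a Sc)
    (hc : ∀ m : ℕ, 0 < m → clS (g := 2) a Sc ^ m ≠ 1) :
    ∃ (T U : ℕ → Pts (fun _ : Unit => quint a ha.out)) (M N : ℕ → ℕ),
      (∀ j, 0 < M j ∧ 0 < N j ∧
        N j • (ee (T j) + ee (U j)) - M j • eS a Sc ∈ ratZero (fun _ : Unit => quint a ha.out)) ∧
      (∀ (m : ℤ) (n : ℕ →₀ ℤ),
        Tors _ (m • eS a Sc + n.sum fun j b => b • (ee (T j) - ee (U j))) → n = 0) ∧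
      ∀ (m : ℤ) (n : ℕ →₀ ℤ), Tors _ (m • eS a Sc + n.sum fun j b => b • ee (T j)) → n = 0 := by
  classical
  obtain ⟨D, hD, hD'⟩ := exists_seq a hcl Sc hSc hc
  have hU : ∀ n, ∃ U : Pts (fun _ : Unit => quint a ha.out),
      ee U = eS a ((D n).S.erase (D n).T) := by
    intro n
    refine exists_U a ?_
    rw [Multiset.card_erase_of_mem (hD n).2.2.1, Nat.pred_eq_sub_one]
    have := (hD n).2.1
    omega
  choose U hU using hU
  have hTU : ∀ n, eS a (D n).S = ee (aff a (D n).T) + ee (U n) := by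
    intro n
    rw [hU n]
    nth_rewrite 1 [← Multiset.cons_erase (hD n).2.2.1]
    unfold eS
    rw [Multiset.map_cons, Multiset.sum_cons]
  have hrel : ∀ n, (D n).N • (ee (aff a (D n).T) + ee (U n)) - (D n).M • eS a Sc ∈
      ratZero (fun _ : Unit => quint a ha.out) := by
    intro n
    rw [← hTU n]
    exact rel_ee a (hD n).1 hSc (hD n).2.2.2.2.2.1
  obtain ⟨R, iR, ψ, hR, hψ, -⟩ := exists_hom (fun _ : Unit => quint a ha.out)
  have hker : ∀ c, c ∈ ψ.ker ↔ Tors (fun _ : Unit => quint a ha.out) c := fun c =>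
    ((hψ c).trans AddMonoidHom.mem_ker.symm).symm
  let τ : ℕ → AK ≃+* AK := fun n => ((D n).s : AK ≃+* AK)
  have hτ : ∀ n i, τ n (a i) = a i := fun n i => (hD n).2.2.2.2.2.2.1 i
  let σ : ℕ → Cyc (fun _ : Unit => quint a ha.out) →+ Cyc (fun _ : Unit => quint a ha.out) :=
    fun n => gm a (τ n) (hτ n)
  have hσ : ∀ n, ∀ c ∈ ψ.ker, σ n c ∈ ψ.ker := by
    intro n c h
    rw [hker] at h ⊢
    exact gm_tors a (τ n) (hτ n) c h
  have hT : ∀ n, (D n).T.2 ^ 2 = (FF (g := 2) a).eval (D n).T.1 := fun n =>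
    (hD n).1 _ (hD n).2.2.1
  have hfT : ∀ n, ∀ i < n, σ n (ee (aff a (D i).T)) = ee (aff a (D i).T) := by
    intro n i hi
    have h1 := hD' i n hi _ (hD i).2.2.1
    rw [← eS_single]
    refine gm_fix a (τ n) (hτ n) ?_ ?_
    · intro P hP
      rw [Multiset.mem_singleton] at hP
      rw [hP]
      exact hT i
    · intro P hP
      rw [Multiset.mem_singleton] at hP
      rw [hP]
      exact h1
  have hfU : ∀ n, ∀ i < n, σ n (ee (U i)) = ee (U i) := by
    intro n i hi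
    rw [hU i]
    refine gm_fix a (τ n) (hτ n) ?_ ?_
    · intro P hP
      exact (hD i).1 P (Multiset.mem_of_mem_erase hP)
    · intro P hP
      exact hD' i n hi P (Multiset.mem_of_mem_erase hP)
  have hSfix : ∀ n, σ n (eS a Sc) = eS a Sc := fun n =>
    gm_fix a (τ n) (hτ n) hSc (fun P hP => (hD n).2.2.2.2.2.2.2.1 P hP)
  have hneT : ∀ (n : ℕ) (m : ℤ),
      m • (σ n (ee (aff a (D n).T)) - ee (aff a (D n).T)) ∈ ψ.ker → m = 0 := by
    intro n m h
    rw [hker] at h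
    change Tors _ (m • (gm a (τ n) (hτ n) (ee (aff a (D n).T)) - ee (aff a (D n).T))) at h
    rw [gm_aff a (τ n) (hτ n) (hT n)] at h
    exact not_tors a (hT n) (T' := (τ n (D n).T.1, τ n (D n).T.2))
      (gal_on a (τ n) (hτ n) (hT n)) (hD n).2.2.2.2.2.2.2.2 m h
  refine ⟨fun n => aff a (D n).T, U, fun n => (D n).M, fun n => (D n).N,
    fun j => ⟨(hD j).2.2.2.1, (hD j).2.2.2.2.1, hrel j⟩, ?_, ?_⟩
  · intro m₀ n hn
    refine indep ψ.ker (fun j => ee (aff a (D j).T) - ee (U j)) σ hσ ?_ ?_ (m₀ • eS a Sc)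
      (fun n => by rw [map_zsmul, hSfix n]) n ((hker _).2 hn)
    · intro n i hi
      rw [map_sub, hfT n i hi, hfU n i hi]
    · intro n m hm
      have hrel1 : (D n).N • (ee (aff a (D n).T) + ee (U n)) - (D n).M • eS a Sc ∈ ψ.ker := by
        rw [hker]
        exact ⟨1, one_pos, by rw [one_smul]; exact hrel n⟩
      have hrel2 := hσ n _ hrel1
      rw [map_sub, map_nsmul, map_nsmul, map_add, hSfix n] at hrel2
      have h3 := sub_mem hrel2 hrel1
      have h4 := add_mem (AddSubgroup.nsmul_mem _ hm (D n).N) (AddSubgroup.zsmul_mem _ h3 m)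
      have h5 : (D n).N • m • (σ n (ee (aff a (D n).T) - ee (U n)) -
          (ee (aff a (D n).T) - ee (U n))) +
          m • ((D n).N • (σ n (ee (aff a (D n).T)) + σ n (ee (U n))) - (D n).M • eS a Sc -
            ((D n).N • (ee (aff a (D n).T) + ee (U n)) - (D n).M • eS a Sc)) =
          (2 * (D n).N * m : ℤ) • (σ n (ee (aff a (D n).T)) - ee (aff a (D n).T)) := by
        rw [map_sub]
        simp only [← natCast_zsmul]
        module
      rw [h5] at h4
      have h6 := hneT n _ h4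
      have h7 : ((D n).N : ℤ) ≠ 0 := by exact_mod_cast (hD n).2.2.2.2.1.ne'
      rcases mul_eq_zero.1 h6 with h8 | h8
      · exact absurd h8 (mul_ne_zero two_ne_zero h7)
      · exact h8
  · intro m₀ n hn
    exact indep ψ.ker (fun j => ee (aff a (D j).T)) σ hσ hfT hneT (m₀ • eS a Sc)
      (fun n => by rw [map_zsmul, hSfix n]) n ((hker _).2 hn)

end tower

end GJ
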